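import Pool.Agent.H4.SE.Targets

/-!
# Module GK: the rank condition for partitions of the wedge of circles
-/

set_option autoImplicit false

open Finset Equiv
open scoped Classical

namespace Pool.Agent.H58.SE4

open Pool.Agent.H4.SE

theorem none_mem_VV {r d : ℕ} (T : Fin d → List (Fin r × Bool)) : none ∈ VV T :=
  mem_insert_self _ _

theorem vt_mem_VV {r d : ℕ} (T : Fin d → List (Fin r × Bool)) (j : Fin d) (k : ℕ)
    (hk : k ≤ (T j).length) : vt T (j, k) ∈ VV T := by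
  unfold vt
  split_ifs with h
  · exact none_mem_VV T
  · push Not at h
    refine mem_insert_of_mem (mem_image.2 ⟨(j, k), ?_, rfl⟩)
    have h1 : k < (T j).length := lt_of_le_of_ne hk h.2
    have h2 : (T j).length ≤ ∑ i, (T i).length :=
      single_le_sum (f := fun i => (T i).length) (fun _ _ => Nat.zero_le _) (mem_univ j)
    rw [mem_filter, mem_product]
    exact ⟨⟨mem_univ _, mem_range.2 (h1.trans_le h2)⟩, Nat.pos_of_ne_zero h.1, h1⟩

theorem mem_Ei {r d : ℕ} (T : Fin d → List (Fin r × Bool)) (j : Fin d) (k : ℕ) (x : Fin r × Bool)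
    (hx : (T j)[k]? = some x) : (j, k) ∈ Ei T x.1 := by
  have h1 : k < (T j).length := by
    obtain ⟨h, -⟩ := List.getElem?_eq_some_iff.1 hx
    exact h
  have h2 : (T j).length ≤ ∑ i, (T i).length :=
    single_le_sum (f := fun i => (T i).length) (fun _ _ => Nat.zero_le _) (mem_univ j)
  unfold Ei EE
  rw [mem_filter, mem_filter, mem_product]
  refine ⟨⟨⟨mem_univ _, mem_range.2 (h1.trans_le h2)⟩, h1⟩, ?_⟩
  simp [lb, hx]

theorem pf_GK (hGP : T_GP) (hGW : T_GW) : T_GK := by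
  intro r d T κ hκ Q P hQ hP hB
  -- the blocks of the vertices
  have huniq : ∀ (a : Option (Fin d × ℕ)) (X Y : {X // X ∈ Q}), a ∈ X.1 → a ∈ Y.1 → X = Y := by
    intro a X Y hX hY
    by_contra hne
    have := hQ.dis X.1 X.2 Y.1 Y.2 fun h => hne (Subtype.ext h)
    exact Finset.disjoint_left.1 this hX hY
  have hex : ∀ a ∈ VV T, ∃ X : {X // X ∈ Q}, a ∈ X.1 := by
    intro a ha
    obtain ⟨X, hX, haX⟩ := (hQ.un a).1 ha
    exact ⟨⟨X, hX⟩, haX⟩
  obtain ⟨b, hb⟩ := hex none (none_mem_VV T)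
  have hbl : ∃ bl : Option (Fin d × ℕ) → {X // X ∈ Q}, ∀ a ∈ VV T, a ∈ (bl a).1 := by
    refine ⟨fun a => if h : ∃ X : {X // X ∈ Q}, a ∈ X.1 then h.choose else b, fun a ha => ?_⟩
    have h := hex a ha
    simp only [dif_pos h]
    exact h.choose_spec
  obtain ⟨bl, hbl⟩ := hbl
  have hbn : bl none = b := huniq none _ _ (hbl none (none_mem_VV T)) hb
  -- the edges
  have htl : ∀ e : (Σ i, {B // B ∈ P i}), ∃ X : {X // X ∈ Q}, e.2.1.image (tl T) ⊆ X.1 := by
    intro e
    obtain ⟨⟨X, hX, h⟩, -⟩ := hB e.1 e.2.1 e.2.2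
    exact ⟨⟨X, hX⟩, h⟩
  have hhd : ∀ e : (Σ i, {B // B ∈ P i}), ∃ X : {X // X ∈ Q}, e.2.1.image (hd T) ⊆ X.1 := by
    intro e
    obtain ⟨-, ⟨X, hX, h⟩⟩ := hB e.1 e.2.1 e.2.2
    exact ⟨⟨X, hX⟩, h⟩
  choose tl' htl' using htl
  choose hd' hhd' using hhd
  have hedge : ∀ (j : Fin d) (k : ℕ) (x : Fin r × Bool), (T j)[k]? = some x →
      ∃ e : (Σ i, {B // B ∈ P i}), e.1 = x.1 ∧
        ((x.2 = true ∧ tl' e = bl (vt T (j, k)) ∧ hd' e = bl (vt T (j, k + 1))) ∨
          (x.2 = false ∧ tl' e = bl (vt T (j, k + 1)) ∧ hd' e = bl (vt T (j, k)))) := by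
    intro j k x hx
    obtain ⟨B, hBP, hjB⟩ := ((hP x.1).un (j, k)).1 (mem_Ei T j k x hx)
    have h1 : k < (T j).length := by
      obtain ⟨h, -⟩ := List.getElem?_eq_some_iff.1 hx
      exact h
    have hv0 := vt_mem_VV T j k h1.le
    have hv1 := vt_mem_VV T j (k + 1) h1
    have hsg : sg T (j, k) = x.2 := by simp [sg, hx]
    have ht : tl T (j, k) ∈ (tl' ⟨x.1, B, hBP⟩).1 :=
      htl' ⟨x.1, B, hBP⟩ (mem_image_of_mem _ hjB)
    have hh : hd T (j, k) ∈ (hd' ⟨x.1, B, hBP⟩).1 :=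
      hhd' ⟨x.1, B, hBP⟩ (mem_image_of_mem _ hjB)
    refine ⟨⟨x.1, B, hBP⟩, rfl, ?_⟩
    cases hx2 : x.2 with
    | true =>
      left
      rw [hx2] at hsg
      have e1 : tl T (j, k) = vt T (j, k) := by simp [tl, hsg]
      have e2 : hd T (j, k) = vt T (j, k + 1) := by simp [hd, hsg]
      rw [e1] at ht
      rw [e2] at hh
      exact ⟨rfl, huniq _ _ _ ht (hbl _ hv0), huniq _ _ _ hh (hbl _ hv1)⟩
    | false =>
      right
      rw [hx2] at hsg
      have e1 : tl T (j, k) = vt T (j, k + 1) := by simp [tl, hsg]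
      have e2 : hd T (j, k) = vt T (j, k) := by simp [hd, hsg]
      rw [e1] at ht
      rw [e2] at hh
      exact ⟨rfl, huniq _ _ _ ht (hbl _ hv1), huniq _ _ _ hh (hbl _ hv0)⟩
  -- connectivity
  have hvt0 : ∀ j, vt T (j, 0) = none := fun j => by simp [vt]
  have hvtl : ∀ j, vt T (j, (T j).length) = none := fun j => by simp [vt]
  have hreach : ∀ (j : Fin d) (k : ℕ), k ≤ (T j).length →
      Relation.ReflTransGen (fun x y => ∃ e, (tl' e = x ∧ hd' e = y) ∨ (tl' e = y ∧ hd' e = x))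
        b (bl (vt T (j, k))) := by
    intro j k
    induction k with
    | zero =>
      intro _
      rw [hvt0, hbn]
    | succ k ih =>
      intro hk
      obtain ⟨e, -, he⟩ := hedge j k _ (List.getElem?_eq_getElem hk)
      refine (ih (by omega)).tail ⟨e, ?_⟩
      rcases he with ⟨-, h1, h2⟩ | ⟨-, h1, h2⟩
      · exact Or.inl ⟨h1, h2⟩
      · exact Or.inr ⟨h1, h2⟩
  have hcon : ∀ a : {X // X ∈ Q},
      Relation.ReflTransGen (fun x y => ∃ e, (tl' e = x ∧ hd' e = y) ∨ (tl' e = y ∧ hd' e = x))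
        b a := by
    intro a
    obtain ⟨c, hc⟩ : a.1.Nonempty := by
      rw [nonempty_iff_ne_empty]
      intro h
      exact hQ.ne (h ▸ a.2)
    have hcV : c ∈ VV T := (hQ.un c).2 ⟨a.1, a.2, hc⟩
    have hca : bl c = a := huniq c _ _ (hbl c hcV) hc
    unfold VV at hcV
    rcases mem_insert.1 hcV with h | h
    · rw [← hca, h, hbn]
    · obtain ⟨p, hp, hpc⟩ := mem_image.1 h
      obtain ⟨-, hp1, hp2⟩ := mem_filter.1 hp
      have h3 : vt T (p.1, p.2) = c := by
        rw [← hpc]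
        unfold vt
        rw [if_neg]
        rintro (h | h)
        · exact hp1.ne' h
        · exact hp2.ne h
      have h4 := hreach p.1 p.2 hp2.le
      rw [h3, hca] at h4
      exact h4
  obtain ⟨φ, S, hφb, hS, hφ⟩ := hGP {X // X ∈ Q} (Σ i, {B // B ∈ P i}) (FreeGroup (Fin r))
    tl' hd' (fun e => FreeGroup.of e.1) b hcon
  have hκS : κ ≤ S.card := by
    apply hκ
    intro j
    refine hGW r (T j) (Subgroup.closure (S : Set (FreeGroup (Fin r))))
      (fun k => φ (bl (vt T (j, k)))) ?_ ?_ ?_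
    · change φ (bl (vt T (j, 0))) = 1
      rw [hvt0, hbn, hφb]
    · change φ (bl (vt T (j, (T j).length))) = 1
      rw [hvtl, hbn, hφb]
    · rintro k x hx
      obtain ⟨e, he1, he⟩ := hedge j k x hx
      have h5 := hφ e
      rcases he with ⟨hx2, h1, h2⟩ | ⟨hx2, h1, h2⟩
      · rw [h1, h2, he1] at h5
        have h6 : (FreeGroup.mk [x] : FreeGroup (Fin r)) = FreeGroup.of x.1 := by
          rw [FreeGroup.of, ← hx2]
        rw [h6]
        exact h5
      · rw [h1, h2, he1] at h5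
        have h6 : (FreeGroup.mk [x] : FreeGroup (Fin r)) = (FreeGroup.of x.1)⁻¹ := by
          rw [FreeGroup.of, FreeGroup.inv_mk]
          simp [FreeGroup.invRev, ← hx2]
        rw [h6]
        have h7 := inv_mem h5
        have h8 : ((φ (bl (vt T (j, k))))⁻¹ * FreeGroup.of x.1 * φ (bl (vt T (j, k + 1))))⁻¹ =
            (φ (bl (vt T (j, k + 1))))⁻¹ * (FreeGroup.of x.1)⁻¹ * φ (bl (vt T (j, k))) := by
          group
        rw [h8] at h7
        exact h7
  have hc1 : Fintype.card {X // X ∈ Q} = Q.card := Fintype.card_coe Q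
  have hc2 : Fintype.card (Σ i, {B // B ∈ P i}) = ∑ i, (P i).card := by
    rw [Fintype.card_sigma]
    exact sum_congr rfl fun i _ => Fintype.card_coe (P i)
  rw [hc1, hc2] at hS
  omega

end Pool.Agent.H58.SE4
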