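import Pool.Agent.H4.SE.Targets

/-!
# Module GP: potentials on a connected graph with edges labelled in a group
-/

set_option autoImplicit false

open Finset Equiv
open scoped Classical

namespace Pool.Agent.H58.SE4

open Pool.Agent.H4.SE

theorem exit_step {α : Type} {R : α → α → Prop} {D : Finset α} {b a : α}
    (h : Relation.ReflTransGen R b a) (hb : b ∈ D) (ha : a ∉ D) :
    ∃ x y, x ∈ D ∧ y ∉ D ∧ R x y := by
  induction h with
  | refl => exact absurd hb ha
  | @tail c a' hbc hca ih =>
    by_cases hc : c ∈ D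
    · exact ⟨c, a', hc, ha, hca⟩
    · exact ih hc

theorem pf_GP : T_GP := by
  intro α β G _ _ _ _ _ tl hd g b hcon
  have key : ∀ n, 1 ≤ n → n ≤ Fintype.card α → ∃ (D : Finset α) (φ : α → G) (F : Finset β),
      b ∈ D ∧ D.card = n ∧ φ b = 1 ∧ F.card + 1 = n ∧ (∀ e ∈ F, tl e ∈ D ∧ hd e ∈ D) ∧
      ∀ e ∈ F, (φ (hd e))⁻¹ * g e * φ (tl e) = 1 := by
    intro n hn
    induction n, hn using Nat.le_induction with
    | base =>
      intro _
      exact ⟨{b}, fun _ => 1, ∅, by simp, by simp, rfl, by simp, by simp, by simp⟩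
    | succ n hn ih =>
      intro hle
      obtain ⟨D, φ, F, hbD, hD, hφb, hF, hFD, hF1⟩ := ih (by omega)
      obtain ⟨a, ha⟩ : ∃ a, a ∉ D := by
        by_contra hall
        push Not at hall
        have : D = univ := Finset.eq_univ_iff_forall.2 hall
        rw [this, Finset.card_univ] at hD
        omega
      obtain ⟨x, y, hx, hy, e, he⟩ := exit_step (hcon a) hbD ha
      have hby : b ≠ y := fun h => hy (h ▸ hbD)
      have hxy : x ≠ y := fun h => hy (h ▸ hx)
      have heF : e ∉ F := by
        intro heF
        obtain ⟨h1, h2⟩ := hFD e heF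
        rcases he with ⟨-, h3⟩ | ⟨h3, -⟩
        · exact hy (h3 ▸ h2)
        · exact hy (h3 ▸ h1)
      have hold : ∀ (c : G), ∀ e' ∈ F, (Function.update φ y c (hd e'))⁻¹ * g e' *
          Function.update φ y c (tl e') = 1 := by
        intro c e' he'
        obtain ⟨h1, h2⟩ := hFD e' he'
        have h3 : tl e' ≠ y := fun h => hy (h ▸ h1)
        have h4 : hd e' ≠ y := fun h => hy (h ▸ h2)
        rw [Function.update_of_ne h3, Function.update_of_ne h4]
        exact hF1 e' he'
      have hfin : ∀ c : G, (Function.update φ y c (hd e))⁻¹ * g e *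
          Function.update φ y c (tl e) = 1 → ∃ (D : Finset α) (φ : α → G) (F : Finset β),
          b ∈ D ∧ D.card = n + 1 ∧ φ b = 1 ∧ F.card + 1 = n + 1 ∧
          (∀ e ∈ F, tl e ∈ D ∧ hd e ∈ D) ∧
          ∀ e ∈ F, (φ (hd e))⁻¹ * g e * φ (tl e) = 1 := by
        intro c hc
        refine ⟨insert y D, Function.update φ y c, insert e F, mem_insert_of_mem hbD, ?_, ?_, ?_,
          ?_, ?_⟩
        · rw [card_insert_of_notMem hy, hD]
        · rw [Function.update_of_ne hby, hφb]
        · rw [card_insert_of_notMem heF, hF]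
        · intro e' he'
          rcases mem_insert.1 he' with rfl | he'
          · rcases he with ⟨h1, h2⟩ | ⟨h1, h2⟩
            · rw [h1, h2]
              exact ⟨mem_insert_of_mem hx, mem_insert_self _ _⟩
            · rw [h1, h2]
              exact ⟨mem_insert_self _ _, mem_insert_of_mem hx⟩
          · obtain ⟨h1, h2⟩ := hFD e' he'
            exact ⟨mem_insert_of_mem h1, mem_insert_of_mem h2⟩
        · intro e' he'
          rcases mem_insert.1 he' with rfl | he'
          · exact hc
          · exact hold c e' he'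
      rcases he with ⟨h1, h2⟩ | ⟨h1, h2⟩
      · refine hfin (g e * φ x) ?_
        rw [h1, h2, Function.update_self, Function.update_of_ne hxy]
        group
      · refine hfin ((g e)⁻¹ * φ x) ?_
        rw [h1, h2, Function.update_self, Function.update_of_ne hxy]
        group
  have hpos : 1 ≤ Fintype.card α := Fintype.card_pos_iff.2 ⟨b⟩
  obtain ⟨D, φ, F, hbD, hD, hφb, hF, hFD, hF1⟩ := key _ hpos le_rfl
  refine ⟨φ, (univ \ F).image fun e => (φ (hd e))⁻¹ * g e * φ (tl e), hφb, ?_, ?_⟩
  · have h1 : ((univ \ F).image fun e => (φ (hd e))⁻¹ * g e * φ (tl e)).card ≤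
        (univ \ F).card := card_image_le
    have h2 : (univ \ F).card + F.card = Fintype.card β := by
      rw [← Finset.card_univ, ← card_sdiff_add_card_eq_card (subset_univ F)]
    omega
  · intro e
    by_cases he : e ∈ F
    · rw [hF1 e he]
      exact one_mem _
    · apply Subgroup.subset_closure
      rw [Finset.mem_coe, mem_image]
      exact ⟨e, by simp [he], rfl⟩

end Pool.Agent.H58.SE4
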