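import Pool.Agent.H4.SE.Targets

/-!
# Module GR: rank of finitely generated subgroups of free groups
-/

set_option autoImplicit false

open Finset Equiv
open scoped Classical

namespace Pool.Agent.H58.SE4

open Pool.Agent.H4.SE

theorem pf_GR : T_GR := by
  intro r S
  set K := Subgroup.closure (S : Set (FreeGroup (Fin r))) with hK
  haveI : IsFreeGroup K := subgroupIsFreeOfIsFree K
  obtain ⟨X, e⟩ : ∃ X : Type, Nonempty (K ≃* FreeGroup X) :=
    ⟨IsFreeGroup.Generators K, ⟨IsFreeGroup.toFreeGroup K⟩⟩
  obtain ⟨e⟩ := e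
  let h : FreeGroup X →* Multiplicative (X →₀ ℚ) :=
    FreeGroup.lift fun x => Multiplicative.ofAdd (Finsupp.single x (1 : ℚ))
  let w : Finset (X →₀ ℚ) := S.attach.image fun s =>
    Multiplicative.toAdd (h (e ⟨s.1, Subgroup.subset_closure s.2⟩))
  let V : Submodule ℚ (X →₀ ℚ) := Submodule.span ℚ (w : Set (X →₀ ℚ))
  let U : Subgroup K := (AddSubgroup.toSubgroup V.toAddSubgroup).comap (h.comp e.toMonoidHom)
  have hU : U = ⊤ := by
    rw [eq_top_iff, ← Subgroup.closure_closure_coe_preimage, Subgroup.closure_le]
    intro x hx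
    have hx' : (x : FreeGroup (Fin r)) ∈ S := hx
    change Multiplicative.toAdd (h (e x)) ∈ V
    apply Submodule.subset_span
    rw [Finset.mem_coe, mem_image]
    exact ⟨⟨x.1, hx'⟩, mem_attach _ _, rfl⟩
  have hall : ∀ x : X, Finsupp.single x (1 : ℚ) ∈ V := by
    intro x
    have h1 : e.symm (FreeGroup.of x) ∈ U := by
      rw [hU]
      trivial
    have h2 : Multiplicative.toAdd (h (e (e.symm (FreeGroup.of x)))) ∈ V := h1
    rw [MulEquiv.apply_symm_apply] at h2
    simpa [h] using h2
  have hV : V = ⊤ := by
    rw [eq_top_iff]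
    intro f _
    induction f using Finsupp.induction_linear with
    | zero => exact V.zero_mem
    | add f g hf hg => exact V.add_mem (hf trivial) (hg trivial)
    | single a c =>
      have := V.smul_mem c (hall a)
      simpa using this
  have hli : LinearIndependent ℚ (fun x : X => Finsupp.single x (1 : ℚ)) :=
    Finsupp.linearIndependent_single_one ℚ X
  have hcard := linearIndependent_le_span_finset _ hli w hV
  haveI : Finite X := by
    rw [← Cardinal.mk_lt_aleph0_iff]
    exact lt_of_le_of_lt hcard (Cardinal.nat_lt_aleph0 _)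
  haveI := Fintype.ofFinite X
  have hcard' : Fintype.card X ≤ S.card := by
    rw [Cardinal.mk_fintype] at hcard
    have h3 : Fintype.card X ≤ w.card := by exact_mod_cast hcard
    refine h3.trans (card_image_le.trans ?_)
    rw [card_attach]
  exact ⟨Fintype.card X, hcard',
    ⟨(FreeGroup.freeGroupCongr (Fintype.equivFin X).symm).trans e.symm⟩⟩

end Pool.Agent.H58.SE4
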